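import Pool.Agent.helper21.OE.SpecC

/-!
# MP_2e0e07_nt, project OE: row CJT (complex conjugation commutes with `T_ℓ` on level one)
-/

set_option autoImplicit false

namespace Pool.Agent.OE

open MvPolynomial Matrix

/-- the term of a matrix -/
noncomputable def CJT_T {d t : ℤ} {A : Type} [CommRing A] (f : Oz d t →+* A) (φ : Sy d t A)
    (M : Mat d t) : Sy d t A := fun u v => act f M.adjugate (φ (M *ᵥ u) (M *ᵥ v))

theorem CJT_op {d t : ℤ} {A : Type} [CommRing A] (f : Oz d t →+* A) (ℓ : ℕ) (F : Finset (GO d t))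
    (φ : Sy d t A) (u v : Vec d t) :
    opT f ℓ F φ u v = ∑ g : F, CJT_T f φ (al ℓ g.val.val) u v := by
  have h1 : opT f ℓ F φ u v = ∑ g ∈ F, CJT_T f φ (al ℓ g.val) u v := rfl
  rw [h1]
  exact (Finset.sum_coe_sort F fun g => CJT_T f φ (al ℓ g.val) u v).symm

theorem CJT_term (hCMG : CMG_stmt) (hCJA : CJA_stmt) {d t : ℤ} {A : Type} [CommRing A]
    (f : Oz d t →+* A) (φ : Sy d t A) (M : Mat d t) (u v : Vec d t) :
    sw (CJT_T f φ M (cv u) (cv v)) = CJT_T f (cj φ) (cm M) u v := by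
  obtain ⟨-, h2, h3, -, h5, -⟩ := hCMG d t
  have e1 : ∀ w : Vec d t, M *ᵥ cv w = cv (cm M *ᵥ w) := by
    intro w
    rw [h2, h5]
  have e2 : cj φ (cm M *ᵥ u) (cm M *ᵥ v) = sw (φ (cv (cm M *ᵥ u)) (cv (cm M *ᵥ v))) := rfl
  unfold CJT_T
  rw [hCJA.1, h3, e1, e1, e2]

theorem CJT (hCMG : CMG_stmt) (hCJA : CJA_stmt) (hCJS : CJS_stmt) (hPRC : PRC_stmt)
    (hCNJ : CNJ_stmt) (hTR1 : TR1_stmt) : CJT_stmt := by
  intro d t ht ℓ hℓ F hF A _ f k φ hφ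
  have hφ' : IsSym f k 1 (fun _ => 1) (cj φ) := hCJS f k 1 (fun _ => 1) φ (fun _ => rfl) hφ
  obtain ⟨-, -, -, -, -, -, -, h8, -⟩ := hCMG d t
  obtain ⟨σ, hσ⟩ := hPRC d t ℓ F hF
  funext u v
  have e0 : cj (opT f ℓ F φ) u v = sw (opT f ℓ F φ (cv u) (cv v)) := rfl
  rw [e0, CJT_op, map_sum, CJT_op, ← Equiv.sum_comp σ fun i : F => CJT_T f (cj φ) (al ℓ i.val.val) u v]
  refine Finset.sum_congr rfl fun i _ => ?_
  rw [CJT_term hCMG hCJA, h8]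
  obtain ⟨h, hh, hg⟩ := hσ i
  obtain ⟨h', h1, -, -⟩ := hCNJ d t ℓ hℓ.ne_zero h hh
  have e1 : al ℓ (cm i.val.val) = h'.val * al ℓ (σ i).val.val := by
    unfold al
    rw [hg, ← Matrix.mul_assoc, h1, Matrix.mul_assoc]
  have e3 := hTR1 d t ht f k 1 (fun _ => 1) (cj φ) hφ' (al ℓ (σ i).val.val) h'
    (by rw [Nat.cast_one]; exact one_dvd _) u v
  rw [one_smul] at e3
  rw [e1]
  exact e3

end Pool.Agent.OE
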